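import Mathlib

/-!
A finitely generated soluble group in `(EN, ∞)^*` that is not finite-exponent-by-nilpotent.

Let `V = ℤ × ℤ` and `w k = (k + 1, (k + 1)^2)` for `k ≥ 0`. For `u ∈ V` let `a_u` be the element of
the product of the dihedral groups `D_{v,k}` of order `2 (2 k + 3)`, `v ∈ V`, `k ≥ 0`, with
coordinates a reflection `s` if `v = u`, another reflection `s'` with `s s'` of order `2 k + 3` if
`v + w k = u`, and `1` otherwise. `V` acts by translations, and `G` is the group generated by `a_0`
and `V`. The elements `a_u` and `a_{u + w k}` generate a dihedral group of order `2 (2 k + 3)`, so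
`G` is not finite-exponent-by-nilpotent. On the other hand a translate of a line meets the parabola
in at most two points, and therefore each subgroup `⟨x, x^y⟩` has finite exponent or is an extension
of a group of finite exponent by a cyclic group.
-/

set_option autoImplicit false

namespace Pool.Agent.Results.MP_960512_al.FiniteExponentByNilpotent

/-- The class `EN`: some normal subgroup has finite exponent and nilpotent quotient. -/
def IsEN (G : Type) [Group G] : Prop :=
  ∃ (K : Subgroup G) (_ : K.Normal),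
    (∃ e : ℕ, 0 < e ∧ ∀ g ∈ K, g ^ e = 1) ∧ Group.IsNilpotent (G ⧸ K)

/-- The class `(EN, ∞)^*`: every infinite subset contains two distinct elements `x`, `y` such that
the subgroup generated by `x` and `y⁻¹ * x * y` is in `EN`. -/
def IsENStar (G : Type) [Group G] : Prop :=
  ∀ S : Set G, S.Infinite → ∃ x ∈ S, ∃ y ∈ S, x ≠ y ∧
    IsEN (Subgroup.closure ({x, y⁻¹ * x * y} : Set G))

open DihedralGroup
open scoped commutatorElement

/-- The lattice. -/
abbrev V : Type := Multiplicative (ℤ × ℤ)

/-- The coordinate group. -/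
abbrev E : Type := (k : ℕ) → DihedralGroup (2 * k + 3)

/-- The big group. -/
abbrev W : Type := RegularWreathProduct E V

/-- The points of the parabola. -/
def w (k : ℕ) : V := Multiplicative.ofAdd ((k : ℤ) + 1, ((k : ℤ) + 1) ^ 2)

lemma w_ne_one (k : ℕ) : w k ≠ 1 := by
  intro h
  have h1 : ((k : ℤ) + 1, ((k : ℤ) + 1) ^ 2) = ((0, 0) : ℤ × ℤ) := Multiplicative.ofAdd.injective h
  have h2 := congrArg Prod.fst h1
  simp only at h2
  omega

/-- The element `a_0`. -/
def a : V → E := fun v k => if v = 1 then sr 0 else if v * w k = 1 then sr 1 else 1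

/-! ### Subgroups of finite exponent -/

/-- Elements of the base group with support in `M`. -/
def P (M : Set V) : Subgroup (V → E) where
  carrier := {f | ∀ v k, (v ∉ M → f v k ∈ Subgroup.zpowers (sr 1 : DihedralGroup (2 * k + 3))) ∧
    (v * w k ∉ M → f v k ∈ Subgroup.zpowers (sr 0 : DihedralGroup (2 * k + 3)))}
  mul_mem' := by
    intro f g hf hg v k
    exact ⟨fun h => Subgroup.mul_mem _ ((hf v k).1 h) ((hg v k).1 h),
      fun h => Subgroup.mul_mem _ ((hf v k).2 h) ((hg v k).2 h)⟩
  one_mem' := fun v k => ⟨fun _ => Subgroup.one_mem _, fun _ => Subgroup.one_mem _⟩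
  inv_mem' := by
    intro f hf v k
    exact ⟨fun h => Subgroup.inv_mem _ ((hf v k).1 h), fun h => Subgroup.inv_mem _ ((hf v k).2 h)⟩

lemma P_mono {M N : Set V} (h : M ⊆ N) : P M ≤ P N :=
  fun _ hf v k => ⟨fun hv => (hf v k).1 (fun h' => hv (h h')),
    fun hv => (hf v k).2 (fun h' => hv (h h'))⟩

lemma a_mem : a ∈ P {1} := by
  intro v k
  constructor
  · intro hv
    have hv' : v ≠ 1 := hv
    simp only [a, if_neg hv']
    split_ifs
    · exact Subgroup.mem_zpowers _
    · exact Subgroup.one_mem _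
  · intro hv
    have hv' : v * w k ≠ 1 := hv
    simp only [a, if_neg hv']
    split_ifs
    · exact Subgroup.mem_zpowers _
    · exact Subgroup.one_mem _

lemma sq_of_mem_zpowers_sr {n : ℕ} {i : ZMod n} {g : DihedralGroup n}
    (h : g ∈ Subgroup.zpowers (sr i)) : g ^ 2 = 1 := by
  obtain ⟨m, rfl⟩ := Subgroup.mem_zpowers_iff.1 h
  rw [← zpow_natCast, ← zpow_mul, mul_comm, zpow_mul, zpow_natCast, pow_two, sr_mul_self, one_zpow]

/-- A translate of a line and finitely many of its translates see only finitely many indices. -/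
lemma finite_line (d s : V) : {k : ℕ | ∃ l : ℤ, w k = d * s ^ l}.Finite := by
  by_cases hs : s = 1
  · subst hs
    apply Set.Finite.subset (Set.finite_singleton ((Multiplicative.toAdd d).1 - 1).toNat)
    rintro k ⟨l, hl⟩
    rw [one_zpow, mul_one] at hl
    simp only [Set.mem_singleton_iff]
    rw [← hl]
    simp [w]
  · let s1 : ℤ := (Multiplicative.toAdd s).1
    let s2 : ℤ := (Multiplicative.toAdd s).2
    let d1 : ℤ := (Multiplicative.toAdd d).1
    let d2 : ℤ := (Multiplicative.toAdd d).2
    have hs' : s1 ≠ 0 ∨ s2 ≠ 0 := by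
      by_contra hcon
      push Not at hcon
      apply hs
      apply Multiplicative.toAdd.injective
      exact Prod.ext hcon.1 hcon.2
    let q : Polynomial ℤ := Polynomial.C s1 * Polynomial.X ^ 2 + Polynomial.C (-s2) * Polynomial.X
      + Polynomial.C (s2 * d1 - s1 * d2)
    have hev : ∀ x : ℤ, Polynomial.eval x q = s1 * x ^ 2 + -s2 * x + (s2 * d1 - s1 * d2) := by
      intro x
      simp only [q, Polynomial.eval_add, Polynomial.eval_mul, Polynomial.eval_C,
        Polynomial.eval_pow, Polynomial.eval_X]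
    have hq : q ≠ 0 := by
      intro h0
      have e0 := hev 0
      have e1 := hev 1
      have e2 := hev (-1)
      rw [h0, Polynomial.eval_zero] at e0 e1 e2
      have h1 : s1 = 0 := by linarith
      have h2 : s2 = 0 := by linarith
      rcases hs' with h | h
      · exact h h1
      · exact h h2
    have hfin : {x : ℤ | Polynomial.IsRoot q x}.Finite := Polynomial.finite_setOfPred_isRoot hq
    have hinj : Set.InjOn (fun k : ℕ => (k : ℤ) + 1) ((fun k : ℕ => (k : ℤ) + 1) ⁻¹'
        {x : ℤ | Polynomial.IsRoot q x}) := by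
      intro x _ y _ hxy
      simpa using hxy
    refine (hfin.preimage hinj).subset ?_
    rintro k ⟨l, hl⟩
    have h1 : (k : ℤ) + 1 = d1 + l * s1 := by
      have := congrArg (fun v : V => (Multiplicative.toAdd v).1) hl
      simpa [w, d1, s1] using this
    have h2 : ((k : ℤ) + 1) ^ 2 = d2 + l * s2 := by
      have := congrArg (fun v : V => (Multiplicative.toAdd v).2) hl
      simpa [w, d2, s2] using this
    show Polynomial.IsRoot q ((k : ℤ) + 1)
    rw [Polynomial.IsRoot.def, hev]
    linear_combination (-s2) * h1 + s1 * h2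

/-- The union of the translates of the finite set `F` by the powers of `s`. -/
def sat (F : Set V) (s : V) : Set V := {v | ∃ f ∈ F, ∃ i : ℤ, v = f * s ^ i}

lemma subset_sat (F : Set V) (s : V) : F ⊆ sat F s := fun f hf => ⟨f, hf, 0, by simp⟩

lemma mul_mem_sat {F : Set V} {s v : V} : s * v ∈ sat F s ↔ v ∈ sat F s := by
  constructor
  · rintro ⟨f, hf, i, h⟩
    refine ⟨f, hf, i - 1, ?_⟩
    rw [zpow_sub_one, ← mul_assoc, ← h, mul_comm s v, mul_assoc, mul_inv_cancel, mul_one]
  · rintro ⟨f, hf, i, h⟩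
    refine ⟨f, hf, i + 1, ?_⟩
    rw [h, zpow_add_one, mul_comm s, mul_assoc]

lemma finite_sat {F : Set V} (hF : F.Finite) (s : V) :
    {k : ℕ | ∃ v, v ∈ sat F s ∧ v * w k ∈ sat F s}.Finite := by
  have h : {k : ℕ | ∃ v, v ∈ sat F s ∧ v * w k ∈ sat F s} ⊆
      ⋃ f ∈ F, ⋃ g ∈ F, {k : ℕ | ∃ l : ℤ, w k = (f⁻¹ * g) * s ^ l} := by
    rintro k ⟨v, ⟨f, hf, i, hi⟩, ⟨g, hg, j, hj⟩⟩
    simp only [Set.mem_iUnion]
    refine ⟨f, hf, g, hg, j - i, ?_⟩
    have h1 : w k = v⁻¹ * (g * s ^ j) := by rw [← hj]; group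
    rw [h1, hi, zpow_sub]
    simp only [mul_inv_rev]
    rw [mul_comm (s ^ i)⁻¹ f⁻¹, mul_assoc, mul_assoc]
    congr 1
    rw [mul_comm, mul_assoc]
  exact (hF.biUnion fun f _ => hF.biUnion fun g _ => finite_line _ s).subset h

/-- `P (sat F s)` has finite exponent. -/
lemma exists_exponent {F : Set V} (hF : F.Finite) (s : V) :
    ∃ e : ℕ, 0 < e ∧ ∀ f ∈ P (sat F s), f ^ e = 1 := by
  classical
  set T : Finset ℕ := (finite_sat hF s).toFinset with hT
  refine ⟨2 * ∏ k ∈ T, (2 * k + 3), ?_, ?_⟩
  · apply Nat.mul_pos (by norm_num)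
    exact Finset.prod_pos (fun k _ => by omega)
  · intro f hf
    funext v k
    show f v k ^ _ = 1
    by_cases h1 : v ∈ sat F s
    · by_cases h2 : v * w k ∈ sat F s
      · have hk : k ∈ T := by
          rw [hT, Set.Finite.mem_toFinset]
          exact ⟨v, h1, h2⟩
        obtain ⟨c, hc⟩ := Finset.dvd_prod_of_mem (fun k => 2 * k + 3) hk
        have h3 : Monoid.exponent (DihedralGroup (2 * k + 3)) ∣ 2 * (2 * k + 3) := by
          rw [DihedralGroup.exponent]
          exact Nat.lcm_dvd (Dvd.intro_left _ rfl) (Dvd.intro _ rfl)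
        have h4 : 2 * ∏ k ∈ T, (2 * k + 3) = 2 * (2 * k + 3) * c := by rw [hc]; ring
        rw [h4, pow_mul, Monoid.exponent_dvd_iff_forall_pow_eq_one.1 h3, one_pow]
      · rw [pow_mul, sq_of_mem_zpowers_sr ((hf v k).2 h2), one_pow]
    · rw [pow_mul, sq_of_mem_zpowers_sr ((hf v k).1 h1), one_pow]

/-! ### The group of finitely supported elements -/

/-- The base group as a subgroup of the big group. -/
def base : (V → E) →* W where
  toFun f := ⟨f, 1⟩
  map_one' := rfl
  map_mul' f g := by
    refine RegularWreathProduct.ext ?_ ?_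
    · funext v
      simp
    · simp

lemma base_injective : Function.Injective base := by
  intro f g h
  exact congrArg RegularWreathProduct.left h

lemma conj_base (x : W) (g : V → E) : x * base g * x⁻¹ =
    base (x.left * (fun v => g (x.right⁻¹ * v)) * x.left⁻¹) := by
  refine RegularWreathProduct.ext ?_ ?_
  · funext v
    simp [base]
  · simp [base]

/-- The elements with finite support. -/
def Q : Subgroup W where
  carrier := {x | ∃ F : Set V, F.Finite ∧ x.left ∈ P F}
  one_mem' := ⟨∅, Set.finite_empty, (P ∅).one_mem⟩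
  mul_mem' := by
    rintro x y ⟨F, hF, hx⟩ ⟨F', hF', hy⟩
    refine ⟨F ∪ (fun v => x.right * v) '' F', hF.union (hF'.image _), ?_⟩
    rw [RegularWreathProduct.mul_left]
    refine Subgroup.mul_mem _ (P_mono Set.subset_union_left hx) ?_
    intro v k
    constructor
    · intro hv
      refine (hy (x.right⁻¹ * v) k).1 (fun h => hv (Or.inr ⟨_, h, by simp⟩))
    · intro hv
      refine (hy (x.right⁻¹ * v) k).2 (fun h => hv (Or.inr ⟨_, h, ?_⟩))
      simp [mul_assoc]
  inv_mem' := by
    rintro x ⟨F, hF, hx⟩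
    refine ⟨(fun v => x.right⁻¹ * v) '' F, hF.image _, ?_⟩
    rw [RegularWreathProduct.inv_left]
    intro v k
    constructor
    · intro hv
      refine Subgroup.inv_mem _ ((hx (x.right * v) k).1 (fun h => hv ⟨_, h, by simp⟩))
    · intro hv
      refine Subgroup.inv_mem _ ((hx (x.right * v) k).2 (fun h => hv ⟨_, h, ?_⟩))
      simp [mul_assoc]

/-- The base elements with support in `M`. -/
def PW (M : Set V) : Subgroup W := (P M).map base

lemma mem_PW {M : Set V} {x : W} : x ∈ PW M ↔ x.right = 1 ∧ x.left ∈ P M := by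
  constructor
  · rintro ⟨f, hf, rfl⟩
    exact ⟨rfl, hf⟩
  · rintro ⟨h1, h2⟩
    exact ⟨x.left, h2, RegularWreathProduct.ext rfl h1.symm⟩

lemma conj_PW {F : Set V} {x : W} (hx : x.left ∈ P F) {y : W} (hy : y ∈ PW (sat F x.right)) :
    x * y * x⁻¹ ∈ PW (sat F x.right) := by
  obtain ⟨g, hg, rfl⟩ := hy
  rw [conj_base]
  refine ⟨_, ?_, rfl⟩
  have hx' : x.left ∈ P (sat F x.right) := P_mono (subset_sat _ _) hx
  refine Subgroup.mul_mem _ (Subgroup.mul_mem _ hx' ?_) (Subgroup.inv_mem _ hx')
  intro v k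
  constructor
  · intro hv
    refine (hg (x.right⁻¹ * v) k).1 (fun h => hv ?_)
    rw [← mul_mem_sat] at h
    simpa using h
  · intro hv
    refine (hg (x.right⁻¹ * v) k).2 (fun h => hv ?_)
    rw [← mul_mem_sat] at h
    simpa [mul_assoc] using h

lemma conj_PW' {F : Set V} {x : W} (hx : x.left ∈ P F) {y : W} (hy : y ∈ PW (sat F x.right)) :
    x⁻¹ * y * x ∈ PW (sat F x.right) := by
  obtain ⟨g, hg, rfl⟩ := hy
  have h0 := conj_base x⁻¹ g
  rw [inv_inv] at h0
  rw [h0]
  refine ⟨_, ?_, rfl⟩
  have hx' : x.left ∈ P (sat F x.right) := P_mono (subset_sat _ _) hx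
  have hx'' : x⁻¹.left ∈ P (sat F x.right) := by
    rw [RegularWreathProduct.inv_left]
    intro v k
    constructor
    · intro hv
      exact Subgroup.inv_mem _ ((hx' (x.right * v) k).1 (fun h => hv (mul_mem_sat.1 h)))
    · intro hv
      refine Subgroup.inv_mem _ ((hx' (x.right * v) k).2 (fun h => hv ?_))
      rw [mul_assoc] at h
      exact mul_mem_sat.1 h
  refine Subgroup.mul_mem _ (Subgroup.mul_mem _ hx'' ?_) (Subgroup.inv_mem _ hx'')
  intro v k
  constructor
  · intro hv
    refine (hg _ k).1 (fun h => hv ?_)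
    rw [RegularWreathProduct.inv_right, inv_inv] at h
    exact mul_mem_sat.1 h
  · intro hv
    refine (hg _ k).2 (fun h => hv ?_)
    rw [RegularWreathProduct.inv_right, inv_inv, mul_assoc] at h
    exact mul_mem_sat.1 h

lemma exists_exponent_PW {F : Set V} (hF : F.Finite) (s : V) :
    ∃ e : ℕ, 0 < e ∧ ∀ x ∈ PW (sat F s), x ^ e = 1 := by
  obtain ⟨e, he, h⟩ := exists_exponent hF s
  refine ⟨e, he, ?_⟩
  rintro _ ⟨f, hf, rfl⟩
  rw [← map_pow, h f hf, map_one]

/-- For `x`, `y` with finite support, the group generated by `x` and `x^y` is in `EN`. -/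
lemma pair_EN {H : Type} [Group H] (φ : H →* W) (hφ : Function.Injective φ)
    (hQ : ∀ h, φ h ∈ Q) (x y : H) : IsEN (Subgroup.closure ({x, y⁻¹ * x * y} : Set H)) := by
  -- the commutator
  set c : H := x⁻¹ * (y⁻¹ * x * y) with hc
  obtain ⟨F1, hF1, hx⟩ := hQ x
  obtain ⟨F2, hF2, hcF⟩ := hQ c
  have hcr : (φ c).right = 1 := by
    have h : (φ c).right = RegularWreathProduct.rightHom (φ c) := rfl
    rw [h, hc]
    simp only [map_mul, map_inv]
    rw [mul_comm (RegularWreathProduct.rightHom (φ y))⁻¹]
    group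
  set F : Set V := F1 ∪ F2 with hF
  have hFfin : F.Finite := hF1.union hF2
  set s : V := (φ x).right with hs
  set S : Subgroup H := Subgroup.closure ({x, y⁻¹ * x * y} : Set H) with hS
  have hxF : (φ x).left ∈ P F := P_mono Set.subset_union_left hx
  have hcPW : φ c ∈ PW (sat F s) := by
    rw [mem_PW]
    exact ⟨hcr, P_mono (Set.subset_union_right.trans (subset_sat _ _)) hcF⟩
  have hxS : x ∈ S := Subgroup.subset_closure (by simp)
  have hxyS : y⁻¹ * x * y ∈ S := Subgroup.subset_closure (by simp)
  have hcS : c ∈ S := S.mul_mem (S.inv_mem hxS) hxyS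
  have hxc : y⁻¹ * x * y = x * c := by rw [hc]; group
  -- the normal subgroup
  let L : Subgroup H := (PW (sat F s)).comap φ
  have hnx : ∀ g ∈ L, x * g * x⁻¹ ∈ L := by
    intro g hg
    show φ (x * g * x⁻¹) ∈ PW (sat F s)
    rw [map_mul, map_mul, map_inv]
    exact conj_PW hxF hg
  have hnx' : ∀ g ∈ L, x⁻¹ * g * x ∈ L := by
    intro g hg
    show φ (x⁻¹ * g * x) ∈ PW (sat F s)
    rw [map_mul, map_mul, map_inv]
    exact conj_PW' hxF hg
  have hcL : c ∈ L := hcPW
  have hnorm : ∀ h ∈ S, ∀ g ∈ L, h * g * h⁻¹ ∈ L := by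
    intro h hh
    induction hh using Subgroup.closure_induction'' with
    | mem z hz =>
      rcases hz with rfl | hz
      · exact hnx
      · rw [Set.mem_singleton_iff.1 hz, hxc]
        intro g hg
        have h1 : x * c * g * (x * c)⁻¹ = x * (c * g * c⁻¹) * x⁻¹ := by group
        rw [h1]
        exact hnx _ (L.mul_mem (L.mul_mem hcL hg) (L.inv_mem hcL))
    | inv_mem z hz =>
      rcases hz with rfl | hz
      · intro g hg
        have := hnx' g hg
        rwa [inv_inv]
      · rw [Set.mem_singleton_iff.1 hz, hxc]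
        intro g hg
        have h1 : (x * c)⁻¹ * g * (x * c)⁻¹⁻¹ = c⁻¹ * (x⁻¹ * g * x) * c := by group
        rw [h1]
        exact L.mul_mem (L.mul_mem (L.inv_mem hcL) (hnx' g hg)) hcL
    | one => intro g hg; simpa using hg
    | mul p q _ _ hp hq =>
      intro g hg
      have h1 : p * q * g * (p * q)⁻¹ = p * (q * g * q⁻¹) * p⁻¹ := by group
      rw [h1]
      exact hp _ (hq g hg)
  let K : Subgroup S := L.subgroupOf S
  have hK : K.Normal := ⟨fun g hg h => hnorm h h.2 g hg⟩
  refine ⟨K, hK, ?_, ?_⟩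
  · obtain ⟨e, he, hexp⟩ := exists_exponent_PW hFfin s
    refine ⟨e, he, fun g hg => ?_⟩
    apply Subtype.ext
    apply hφ
    have h1 := hexp (φ g) hg
    rw [← map_pow] at h1
    rw [Subgroup.coe_pow, h1, Subgroup.coe_one, map_one]
  · -- the quotient is cyclic
    have hcomm : ∀ p q : S ⧸ K, p * q = q * p := by
      have hgen : ∀ p : S ⧸ K, p ∈ Subgroup.zpowers (QuotientGroup.mk (⟨x, hxS⟩ : S) : S ⧸ K) := by
        intro p
        induction p using QuotientGroup.induction_on with
        | H p =>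
          obtain ⟨p, hp⟩ := p
          have h2 : (y⁻¹ * x * y : H) ∈ S := hxyS
          induction hp using Subgroup.closure_induction with
          | mem z hz =>
            rcases hz with hz | hz
            · subst hz; exact Subgroup.mem_zpowers _
            · have hz' := Set.mem_singleton_iff.1 hz
              have h3 : (QuotientGroup.mk (⟨z, Subgroup.subset_closure (Or.inr hz)⟩ : S) : S ⧸ K) =
                  QuotientGroup.mk (⟨x, hxS⟩ : S) := by
                symm
                rw [QuotientGroup.eq]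
                show x⁻¹ * z ∈ L
                rw [hz']
                exact hcL
              rw [h3]; exact Subgroup.mem_zpowers _
          | one => exact Subgroup.one_mem _
          | mul p q hp hq h3 h4 => exact Subgroup.mul_mem _ h3 h4
          | inv p hp h3 => exact Subgroup.inv_mem _ h3
      intro p q
      obtain ⟨m, hm⟩ := Subgroup.mem_zpowers_iff.1 (hgen p)
      obtain ⟨n, hn⟩ := Subgroup.mem_zpowers_iff.1 (hgen q)
      rw [← hm, ← hn, ← zpow_add, ← zpow_add, add_comm]
    let _ : CommGroup (S ⧸ K) := { (inferInstance : Group (S ⧸ K)) with mul_comm := hcomm }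
    exact inferInstance

/-! ### The group is not in `EN` -/

/-- Left-normed commutators `[x, y, …, y]`. -/
def cm {H : Type} [Group H] (x y : H) : ℕ → H
  | 0 => x
  | j + 1 => ⁅cm x y j, y⁆

lemma map_cm {H K : Type} [Group H] [Group K] (φ : H →* K) (x y : H) (j : ℕ) :
    φ (cm x y j) = cm (φ x) (φ y) j := by
  induction j with
  | zero => rfl
  | succ j ih => rw [cm, cm, map_commutatorElement, ih]

lemma cm_mem {H : Type} [Group H] (x y : H) (j : ℕ) :
    cm x y j ∈ (⊤ : Subgroup H).lowerCentralSeries j := by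
  induction j with
  | zero => simp
  | succ j ih => exact Subgroup.commutator_mem_commutator ih (Subgroup.mem_top _)

lemma cm_dihedral (n j : ℕ) :
    cm (sr 1 : DihedralGroup n) (sr 0) (j + 1) = r (-(2 : ZMod n) ^ (j + 1)) := by
  induction j with
  | zero =>
    simp only [cm, commutatorElement_def, inv_sr, sr_mul_sr, r_mul_sr, sr_mul_r]
    congr 1
    ring
  | succ j ih =>
    rw [cm, ih]
    simp only [commutatorElement_def, inv_sr, inv_r, sr_mul_sr, r_mul_sr, sr_mul_r]
    congr 1
    ring

lemma not_EN {H : Type} [Group H] (φ : H →* W)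
    (ha : ∃ h, φ h = base a)
    (hb : ∀ k : ℕ, ∃ h, φ h = base (fun v => a ((w k)⁻¹ * v))) : ¬ IsEN H := by
  rintro ⟨K, hK, ⟨e, he, hexp⟩, hnil⟩
  obtain ⟨n, hn⟩ := Subgroup.nilpotent_iff_lowerCentralSeries.1 hnil
  obtain ⟨α, hα⟩ := ha
  obtain ⟨β, hβ⟩ := hb e
  have h1 : cm β α (n + 1) ∈ K := by
    rw [← QuotientGroup.eq_one_iff]
    have h2 : (QuotientGroup.mk' K) (cm β α (n + 1)) ∈
        (⊤ : Subgroup (H ⧸ K)).lowerCentralSeries (n + 1) := by
      rw [map_cm]; exact cm_mem _ _ _
    have h3 := Subgroup.lowerCentralSeries_antitone (⊤ : Subgroup (H ⧸ K)) (n.le_succ) h2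
    rw [hn] at h3
    exact h3
  have h2 := congrArg φ (hexp _ h1)
  rw [map_pow, map_one, map_cm, hα, hβ, ← map_cm, ← map_pow, ← map_one base] at h2
  have h3 := congrFun (congrFun (base_injective h2) 1) e
  have h4 : (cm (fun v => a ((w e)⁻¹ * v)) a (n + 1)) 1 e =
      cm (sr 1 : DihedralGroup (2 * e + 3)) (sr 0) (n + 1) := by
    have h5 := map_cm ((Pi.evalMonoidHom (fun k : ℕ => DihedralGroup (2 * k + 3)) e).comp
      (Pi.evalMonoidHom (fun _ : V => E) 1)) (fun v => a ((w e)⁻¹ * v)) a (n + 1)
    have h6 : a ((w e)⁻¹ * 1) e = sr 1 := by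
      simp [a, w_ne_one]
    have h7 : a 1 e = sr 0 := by simp [a]
    simp only [MonoidHom.comp_apply, Pi.evalMonoidHom_apply, h6, h7] at h5
    exact h5
  have h5 : (cm (fun v => a ((w e)⁻¹ * v)) a (n + 1)) 1 e ^ e = 1 := h3
  rw [h4, cm_dihedral, r_pow, one_def, r.injEq] at h5
  have h6 : ((2 ^ (n + 1) * e : ℕ) : ZMod (2 * e + 3)) = 0 := by
    push_cast
    have h7 := congrArg Neg.neg h5
    rw [neg_zero] at h7
    rw [← h7]
    ring
  rw [ZMod.natCast_eq_zero_iff] at h6
  have h7 : Nat.Coprime (2 * e + 3) (2 ^ (n + 1)) := by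
    apply Nat.Coprime.pow_right
    rw [Nat.coprime_two_right]
    exact ⟨e + 1, by ring⟩
  have h8 := Nat.le_of_dvd he (h7.dvd_of_dvd_mul_left h6)
  omega

/-! ### Solubility -/

lemma solvable_base : Group.IsSolvable (V → E) := by
  -- rotations
  let R : Subgroup (V → E) :=
    { carrier := {f | ∀ v k, ∃ i, f v k = r i}
      one_mem' := fun v k => ⟨0, rfl⟩
      mul_mem' := by
        intro f g hf hg v k
        obtain ⟨i, hi⟩ := hf v k
        obtain ⟨j, hj⟩ := hg v k
        exact ⟨i + j, by simp [hi, hj]⟩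
      inv_mem' := by
        intro f hf v k
        obtain ⟨i, hi⟩ := hf v k
        exact ⟨-i, by simp [hi]⟩ }
  have h1 : commutator (V → E) ≤ R := by
    rw [commutator_def, Subgroup.commutator_le]
    intro f _ g _ v k
    show ∃ i, ⁅f v k, g v k⁆ = r i
    rcases hf : f v k with i | i <;> rcases hg : g v k with j | j <;>
      simp only [commutatorElement_def, inv_sr, inv_r, sr_mul_sr, r_mul_sr, sr_mul_r, r_mul_r] <;>
      exact ⟨_, rfl⟩
  have h2 : ⁅R, R⁆ = ⊥ := by
    rw [Subgroup.commutator_eq_bot_iff_le_centralizer]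
    intro f hf
    rw [Subgroup.mem_centralizer_iff]
    intro g hg
    funext v k
    obtain ⟨i, hi⟩ := hf v k
    obtain ⟨j, hj⟩ := hg v k
    show g v k * f v k = f v k * g v k
    rw [hi, hj, r_mul_r, r_mul_r]
    exact congrArg r (add_comm _ _)
  refine ⟨⟨2, ?_⟩⟩
  rw [derivedSeries_succ, derivedSeries_one, eq_bot_iff, ← h2]
  exact Subgroup.commutator_mono h1 h1

lemma solvable_W : Group.IsSolvable W := by
  have := solvable_base
  refine Group.isSolvable_of_ker_le_range base (RegularWreathProduct.rightHom (D := E) (Q := V)) ?_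
  intro x hx
  refine ⟨x.left, ?_⟩
  have hx' : x.right = 1 := hx
  exact RegularWreathProduct.ext rfl hx'.symm

/-! ### The example -/

/-- The three generators. -/
def gens : Set W := {base a, RegularWreathProduct.inl (Multiplicative.ofAdd (1, 0)),
  RegularWreathProduct.inl (Multiplicative.ofAdd (0, 1))}

/-- The group. -/
abbrev G : Type := Subgroup.closure gens

lemma gens_le : Subgroup.closure gens ≤ Q := by
  rw [Subgroup.closure_le]
  rintro x (rfl | rfl | rfl)
  · exact ⟨{1}, Set.finite_singleton _, a_mem⟩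
  · exact ⟨∅, Set.finite_empty, (P ∅).one_mem⟩
  · exact ⟨∅, Set.finite_empty, (P ∅).one_mem⟩

lemma inl_mem (v : V) : RegularWreathProduct.inl v ∈ Subgroup.closure gens := by
  have h1 : RegularWreathProduct.inl (Multiplicative.ofAdd ((1, 0) : ℤ × ℤ)) ∈
    Subgroup.closure gens := Subgroup.subset_closure (by simp [gens])
  have h2 : RegularWreathProduct.inl (Multiplicative.ofAdd ((0, 1) : ℤ × ℤ)) ∈
    Subgroup.closure gens := Subgroup.subset_closure (by simp [gens])
  have h3 : v = (Multiplicative.ofAdd ((1, 0) : ℤ × ℤ)) ^ (Multiplicative.toAdd v).1 *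
      (Multiplicative.ofAdd ((0, 1) : ℤ × ℤ)) ^ (Multiplicative.toAdd v).2 := by
    apply Multiplicative.toAdd.injective
    rw [toAdd_mul, toAdd_zpow, toAdd_zpow]
    ext <;> simp
  rw [h3, map_mul, map_zpow, map_zpow]
  exact Subgroup.mul_mem _ (Subgroup.zpow_mem _ h1 _) (Subgroup.zpow_mem _ h2 _)

/-- **Theorem.** There is a finitely generated soluble group `G` such that for all `x, y ∈ G` the
subgroup generated by `x` and `x^y = y⁻¹ x y` is finite-exponent-by-nilpotent (so that `G` belongs
to the class `(EN, ∞)^*`), while `G` is not finite-exponent-by-nilpotent. -/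
theorem result : ∃ (G : Type) (_ : Group G), Group.FG G ∧ Group.IsSolvable G ∧
    IsENStar G ∧ (∀ x y : G, IsEN (Subgroup.closure ({x, y⁻¹ * x * y} : Set G))) ∧ ¬ IsEN G := by
  have hpair : ∀ x y : G, IsEN (Subgroup.closure ({x, y⁻¹ * x * y} : Set G)) :=
    fun x y => pair_EN (Subgroup.closure gens).subtype (Subgroup.subtype_injective _)
      (fun h => gens_le h.2) x y
  refine ⟨G, inferInstance, ?_, ?_, ?_, hpair, ?_⟩
  · have : Finite gens := by
      have : gens.Finite := by
        unfold gens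
        exact Set.toFinite _
      exact this.to_subtype
    exact Group.closure_finite_fg gens
  · have := solvable_W
    infer_instance
  · intro S hS
    obtain ⟨x, hx, y, hy, hxy⟩ := hS.nontrivial
    exact ⟨x, hx, y, hy, hxy, hpair x y⟩
  · refine not_EN (Subgroup.closure gens).subtype ?_ ?_
    · exact ⟨⟨base a, Subgroup.subset_closure (by simp [gens])⟩, rfl⟩
    · intro k
      have h1 : RegularWreathProduct.inl (w k) * base a * (RegularWreathProduct.inl (w k))⁻¹ =
          base (fun v => a ((w k)⁻¹ * v)) := by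
        rw [conj_base]
        congr 1
        funext v
        simp
      refine ⟨⟨_, ?_⟩, h1⟩
      exact Subgroup.mul_mem _ (Subgroup.mul_mem _ (inl_mem _)
        (Subgroup.subset_closure (by simp [gens]))) (Subgroup.inv_mem _ (inl_mem _))

end Pool.Agent.Results.MP_960512_al.FiniteExponentByNilpotent
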